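import Pool.Agent.Helper38.CP.Final

namespace Pool.Agent.Results.MP_6a7af9_co.GreedyFails

open Pool.Agent.Helper38.CP

/-- There is a convex body `C` in the plane (a pentagon) such that, for `n = 3`:
the maximum total perimeter over convex equipartitions of `C` into `3` pieces is attained;
every equipartition attaining it is non-crossing; greedy partitions of `C` into `3` pieces exist;
and every greedy partition (whatever the choices among longest chords) is a convex equipartition
whose total perimeter is strictly smaller than the maximum. -/
theorem result : ∃ C : Set Plane, IsConvexBody C ∧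
    (∃ P : Fin 3 → Set Plane, IsMaxEquipartition C 3 P) ∧
    (∀ P : Fin 3 → Set Plane, IsMaxEquipartition C 3 P → IsNonCrossing C P) ∧
    (∃ G : Fin 3 → Set Plane, IsGreedyPartition C 3 G) ∧
    (∀ G : Fin 3 → Set Plane, IsGreedyPartition C 3 G →
      IsConvexEquipartition C 3 G ∧
        ∀ P : Fin 3 → Set Plane, IsMaxEquipartition C 3 P →
          totalPerimeter G < totalPerimeter P) :=
  ⟨penta, bodyC, ⟨opt, opt_max⟩, fun _ hP => max_noncrossing hP, exists_greedy,
    fun _ hG => greedy_sub hG⟩

end Pool.Agent.Results.MP_6a7af9_co.GreedyFails
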